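import Pool.Agent.H28.RC.Targets3

/-!
# The auxiliary modulus (NTB)
-/

set_option autoImplicit false

namespace Pool.Agent.H54.RC

open Pool.Agent.H28.RC

/-- Claim A -/
theorem claimA (hA : T_NTA) (a : ℕ) (ha : 2 ≤ a) : ∀ n : ℕ, 1 ≤ n → ∀ D : ℕ, 1 ≤ D →
    ∃ q : ℕ, 0 < q ∧ q.Coprime D ∧ q.Coprime a ∧ n ∣ orderOf (a : ZMod q) := by
  intro n
  induction n using Nat.recOnPosPrimePosCoprime with
  | prime_pow l k hl hk =>
    intro _ D hD
    obtain ⟨r0, hr0⟩ : ∃ r0 : ℕ, D < l ^ r0 := ⟨D, Nat.lt_pow_self hl.one_lt⟩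
    set r := r0 + k + 2 with hr
    have hDr : D < l ^ r := lt_of_lt_of_le hr0 (Nat.pow_le_pow_right hl.pos (by omega))
    obtain ⟨q, hq, hqa, hord⟩ := hA a l r ha hl (by omega)
    haveI : Fact q.Prime := ⟨hq⟩
    refine ⟨q, hq.pos, ?_, hqa, ?_⟩
    · have hane : (a : ZMod q) ≠ 0 := by
        intro h
        rw [ZMod.natCast_eq_zero_iff] at h
        have := Nat.Coprime.eq_one_of_dvd hqa h
        exact hq.one_lt.ne' this
      have h1 : (a : ZMod q) ^ (q - 1) = 1 := ZMod.pow_card_sub_one_eq_one hane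
      have h2 : orderOf (a : ZMod q) ∣ q - 1 := orderOf_dvd_of_pow_eq_one h1
      rw [hord] at h2
      have h3 : l ^ r ≤ q - 1 := Nat.le_of_dvd (by have := hq.one_lt; omega) h2
      rw [hq.coprime_iff_not_dvd]
      intro hdvd
      have := Nat.le_of_dvd hD hdvd
      omega
    · rw [hord]
      exact pow_dvd_pow l (by omega)
  | zero => intro h; omega
  | one =>
    intro _ D hD
    exact ⟨1, one_pos, Nat.coprime_one_left D, Nat.coprime_one_left a, one_dvd _⟩
  | coprime n1 n2 h1 h2 hc ih1 ih2 =>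
    intro _ D hD
    obtain ⟨q1, hq1, hq1D, hq1a, ho1⟩ := ih1 (by omega) D hD
    obtain ⟨q2, hq2, hq2D, hq2a, ho2⟩ := ih2 (by omega) (D * q1) (Nat.mul_pos hD hq1)
    refine ⟨q1 * q2, Nat.mul_pos hq1 hq2, ?_, Nat.Coprime.mul_left hq1a hq2a, ?_⟩
    · exact Nat.Coprime.mul_left hq1D (Nat.Coprime.coprime_mul_right_right hq2D)
    · refine hc.mul_dvd_of_dvd_of_dvd ?_ ?_
      · refine ho1.trans ?_
        have := orderOf_map_dvd (ZMod.castHom (Dvd.intro q2 rfl : q1 ∣ q1 * q2) (ZMod q1)).toMonoidHom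
          ((a : ZMod (q1 * q2)))
        simpa using this
      · refine ho2.trans ?_
        have := orderOf_map_dvd (ZMod.castHom (Dvd.intro_left q1 rfl : q2 ∣ q1 * q2) (ZMod q2)).toMonoidHom
          ((a : ZMod (q1 * q2)))
        simpa using this

theorem pf_NTB : T_NTA → T_NTB := by
  intro hA n a D hn ha hD
  obtain ⟨q1, hq1, hq1D, hq1a, ho1⟩ := claimA hA a ha n hn D hD
  haveI : NeZero q1 := ⟨hq1.ne'⟩
  set α1 : (ZMod q1)ˣ := ZMod.unitOfCoprime a hq1a.symm with hα1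
  have hordeq : orderOf α1 = orderOf (a : ZMod q1) := by
    rw [← orderOf_units, ZMod.coe_unitOfCoprime]
  have hpos : 0 < orderOf (a : ZMod q1) := by
    rw [← hordeq]; exact orderOf_pos α1
  obtain ⟨q2, hq2, hq2D, hq2a, ho2⟩ := claimA hA a ha (orderOf (a : ZMod q1)) hpos (D * q1)
    (Nat.mul_pos hD hq1)
  haveI : NeZero q2 := ⟨hq2.ne'⟩
  set α2 : (ZMod q2)ˣ := ZMod.unitOfCoprime a hq2a.symm with hα2
  have hordeq2 : orderOf α2 = orderOf (a : ZMod q2) := by
    rw [← orderOf_units, ZMod.coe_unitOfCoprime]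
  have hcop : q1.Coprime q2 := (Nat.Coprime.coprime_mul_left_right hq2D).symm
  have hqa : (q1 * q2).Coprime a := Nat.Coprime.mul_left hq1a hq2a
  set α : (ZMod (q1 * q2))ˣ := ZMod.unitOfCoprime a hqa.symm with hα
  let e : (ZMod (q1 * q2))ˣ ≃* (ZMod q1)ˣ × (ZMod q2)ˣ :=
    (Units.mapEquiv (ZMod.chineseRemainder hcop).toMulEquiv).trans MulEquiv.prodUnits
  have hea : e α = (α1, α2) := by
    have h1 : (((e α).1 : (ZMod q1)ˣ) : ZMod q1) = ((ZMod.chineseRemainder hcop) (α : ZMod (q1 * q2))).1 :=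
      rfl
    have h2 : (((e α).2 : (ZMod q2)ˣ) : ZMod q2) = ((ZMod.chineseRemainder hcop) (α : ZMod (q1 * q2))).2 :=
      rfl
    apply Prod.ext
    · apply Units.ext
      rw [h1, hα, ZMod.coe_unitOfCoprime, hα1, ZMod.coe_unitOfCoprime, map_natCast]
      rfl
    · apply Units.ext
      rw [h2, hα, ZMod.coe_unitOfCoprime, hα2, ZMod.coe_unitOfCoprime, map_natCast]
      rfl
  set τ : (ZMod (q1 * q2))ˣ := e.symm (α1, 1) with hτ
  have heτ : e τ = (α1, 1) := by rw [hτ]; exact e.apply_symm_apply _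
  refine ⟨q1 * q2, ⟨(Nat.mul_pos hq1 hq2).ne'⟩, α, τ, ?_, hqa, ?_, ?_, ?_, ?_⟩
  · exact Nat.Coprime.mul_left hq1D (Nat.Coprime.coprime_mul_right_right hq2D)
  · rw [hα, ZMod.coe_unitOfCoprime]
  · have h : orderOf α1 ∣ orderOf α := by
      have := orderOf_map_dvd ((MonoidHom.fst _ _).comp e.toMonoidHom) α
      simpa [hea] using this
    exact (ho1.trans (by rw [hordeq])).trans h
  · have h : orderOf α1 ∣ orderOf τ := by
      have := orderOf_map_dvd ((MonoidHom.fst _ _).comp e.toMonoidHom) τ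
      simpa [heτ] using this
    exact (ho1.trans (by rw [hordeq])).trans h
  · intro i j hij
    have h1 : e α ^ i = e τ ^ j := by rw [← map_zpow, ← map_zpow, hij]
    rw [hea, heτ] at h1
    have h2 : α2 ^ i = 1 := by
      have := congrArg Prod.snd h1
      simpa using this
    have h3 : (orderOf α2 : ℤ) ∣ i := orderOf_dvd_iff_zpow_eq_one.2 h2
    have h4 : (orderOf α1 : ℤ) ∣ i := by
      refine dvd_trans ?_ h3
      rw [hordeq, hordeq2]
      exact_mod_cast ho2
    have h5 : α1 ^ i = 1 := orderOf_dvd_iff_zpow_eq_one.1 h4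
    apply e.injective
    rw [map_zpow, hea, map_one]
    apply Prod.ext
    · simpa using h5
    · simpa using h2

end Pool.Agent.H54.RC
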